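import Mathlib

/-!
# Bases near powers of a common integer: the elementary part
-/

set_option autoImplicit false

namespace Pool.Agent.helper616_fc

/-- `(1 + t) ^ e` for small `e t` -/
theorem pow_one_add (t : ℝ) (e : ℕ) (h : |(e : ℝ) * t| ≤ 1 / 100) (ht : |t| ≤ 1 / 100) :
    0 ≤ (1 + t) ^ e - 1 - e * t ∧ (1 + t) ^ e - 1 - e * t ≤ (e * t) ^ 2 := by
  have h1 : -2 ≤ t := by linarith [(abs_le.mp ht).1]
  have h2 := one_add_mul_le_pow h1 e
  have h3 : (1 + t) ^ e ≤ Real.exp (e * t) := by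
    rw [Real.exp_nat_mul]
    exact pow_le_pow_left₀ (by linarith [(abs_le.mp ht).1]) (by linarith [Real.add_one_le_exp t]) e
  have h4 := Real.abs_exp_sub_one_sub_id_le (x := (e : ℝ) * t) (by linarith)
  have h5 := (abs_le.mp h4).2
  exact ⟨by linarith, by linarith⟩

/-- the contradiction of the sizes: `n ^ B` is not close to `m n ^ t` with `2 ≤ m ≤ n / 50` -/
theorem size_contra (n B t : ℕ) (m α β : ℝ) (hn : 200 ≤ n) (hm : 2 ≤ |m|) (hm2 : |m| ≤ n / 50)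
    (hα : |α| ≤ 3 / 100) (hβ : |β| ≤ 3 / 100)
    (h : (n : ℝ) ^ B * (1 + α) = m * (n : ℝ) ^ t * (1 + β)) : False := by
  obtain ⟨a1, a2⟩ := abs_le.mp hα
  obtain ⟨b1, b2⟩ := abs_le.mp hβ
  have hn' : (200 : ℝ) ≤ n := by exact_mod_cast hn
  have hn0 : (0 : ℝ) < n := by linarith
  have hB : 0 < (n : ℝ) ^ B := pow_pos hn0 _
  have ht : 0 < (n : ℝ) ^ t := pow_pos hn0 _
  have hm0 : 0 < m := by
    by_contra hc
    push Not at hc
    have h1 : 0 < (n : ℝ) ^ B * (1 + α) := mul_pos hB (by linarith)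
    have h2 : m * (n : ℝ) ^ t * (1 + β) ≤ 0 := by
      apply mul_nonpos_of_nonpos_of_nonneg _ (by linarith)
      exact mul_nonpos_of_nonpos_of_nonneg hc ht.le
    linarith
  rw [abs_of_pos hm0] at hm hm2
  rcases Nat.lt_or_ge t B with hlt | hge
  · have h1 : (n : ℝ) * (n : ℝ) ^ t ≤ (n : ℝ) ^ B := by
      rw [← pow_succ']
      exact pow_le_pow_right₀ (by linarith) hlt
    have h2 : (n : ℝ) ^ B * (1 + α) ≥ (n : ℝ) * (n : ℝ) ^ t * (97 / 100) := by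
      apply mul_le_mul h1 (by linarith) (by norm_num) hB.le
    have h3 : m * (n : ℝ) ^ t * (1 + β) ≤ (n / 50) * (n : ℝ) ^ t * (103 / 100) := by
      apply mul_le_mul _ (by linarith) (by linarith) (by positivity)
      exact mul_le_mul_of_nonneg_right hm2 ht.le
    nlinarith [mul_pos hn0 ht]
  · have h1 : (n : ℝ) ^ B ≤ (n : ℝ) ^ t := pow_le_pow_right₀ (by linarith) hge
    have h2 : (n : ℝ) ^ B * (1 + α) ≤ (n : ℝ) ^ t * (103 / 100) := by
      apply mul_le_mul h1 (by linarith) (by linarith) ht.le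
    have h3 : m * (n : ℝ) ^ t * (1 + β) ≥ 2 * (n : ℝ) ^ t * (97 / 100) := by
      apply mul_le_mul _ (by linarith) (by norm_num) (by positivity)
      exact mul_le_mul_of_nonneg_right hm ht.le
    nlinarith

/-- `(n ^ a + i) ^ p` -/
theorem pow_form (n a p : ℕ) (i : ℝ) (hn : 200 ≤ n) (ha : 1 ≤ a) (hp : 1 ≤ p)
    (hi : (p : ℝ) * |i| ≤ n / 100) :
    |(p : ℝ) * (i / (n : ℝ) ^ a)| ≤ 1 / 100 ∧ |i / (n : ℝ) ^ a| ≤ 1 / 100 ∧
    ((n : ℝ) ^ a + i) ^ p = (n : ℝ) ^ (a * p) * (1 + i / (n : ℝ) ^ a) ^ p := by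
  have hn' : (200 : ℝ) ≤ n := by exact_mod_cast hn
  have hn0 : (0 : ℝ) < n := by linarith
  have hna : 0 < (n : ℝ) ^ a := pow_pos hn0 _
  have h1 : (n : ℝ) ≤ (n : ℝ) ^ a := le_self_pow₀ (by linarith) (by omega)
  have hp' : (1 : ℝ) ≤ p := by exact_mod_cast hp
  have h2 : |(p : ℝ) * (i / (n : ℝ) ^ a)| ≤ 1 / 100 := by
    rw [abs_mul, abs_div, abs_of_pos hna, Nat.abs_cast, ← mul_div_assoc, div_le_iff₀ hna]
    linarith
  have h3 : |i / (n : ℝ) ^ a| ≤ 1 / 100 := by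
    refine le_trans ?_ h2
    rw [abs_mul, Nat.abs_cast]
    nlinarith [abs_nonneg (i / (n : ℝ) ^ a)]
  refine ⟨h2, h3, ?_⟩
  rw [pow_mul, ← mul_pow]
  congr 1
  field_simp

theorem sq_small (v : ℝ) (h : |v| ≤ 1 / 100) : v ^ 2 ≤ |v| / 100 := by
  have := abs_nonneg v
  rw [← sq_abs]
  nlinarith

/-- the case in which the first order term of one of the two dominating powers dominates -/
theorem dom (v Y T : ℝ) (e : ℕ) (n B D : ℕ) (i u θ θ' : ℝ) (a : ℕ) (hn : 200 ≤ n)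
    (haD : a ≤ D) (hi : 2 ≤ (e : ℝ) * |i|) (hi2 : (e : ℝ) * |i| ≤ n / 100)
    (hv : v = e * (i / (n : ℝ) ^ a)) (hv1 : |v| ≤ 1 / 100) (hu : |u| ≤ |v| / 200)
    (hθ : 0 ≤ θ ∧ θ ≤ v ^ 2) (hθ' : 0 ≤ θ' ∧ θ' ≤ u ^ 2)
    (hY : Y = (n : ℝ) ^ D * ((v + θ) - (u + θ'))) (hT : |T| ≤ 3 / 100)
    (hYB : |Y| = (n : ℝ) ^ B * (1 + T)) : False := by
  have hn' : (200 : ℝ) ≤ n := by exact_mod_cast hn
  have hn0 : (0 : ℝ) < n := by linarith
  have hna : 0 < (n : ℝ) ^ a := pow_pos hn0 _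
  have hv0 : 0 < |v| := by
    rw [hv, abs_mul, abs_div, abs_of_pos hna, Nat.abs_cast, ← mul_div_assoc]
    exact div_pos (by linarith) hna
  have hvne : v ≠ 0 := abs_pos.mp hv0
  have hu2 : |u| ≤ 1 / 100 := by linarith
  have h1 := sq_small v hv1
  have h2 := sq_small u hu2
  set β : ℝ := (θ - u - θ') / v with hβ
  have hβv : v * β = θ - u - θ' := by
    rw [hβ]; field_simp
  have hβ1 : |β| ≤ 3 / 100 := by
    rw [hβ, abs_div, div_le_iff₀ hv0]
    have h3 : |θ - u - θ'| ≤ θ + |u| + θ' := by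
      calc |θ - u - θ'| ≤ |θ - u| + |θ'| := abs_sub _ _
        _ ≤ |θ| + |u| + |θ'| := by linarith [abs_sub θ u]
        _ = _ := by rw [abs_of_nonneg hθ.1, abs_of_nonneg hθ'.1]
    linarith [hθ.2, hθ'.2]
  have h4 : Y = (e * i) * (n : ℝ) ^ (D - a) * (1 + β) := by
    rw [hY]
    have h5 : (v + θ) - (u + θ') = v * (1 + β) := by linarith [hβv]
    rw [h5, hv]
    have h6 : (n : ℝ) ^ D = (n : ℝ) ^ (D - a) * (n : ℝ) ^ a := by
      rw [← pow_add]; congr 1; omega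
    rw [h6]
    field_simp
  have h7 : 0 < 1 + β := by linarith [(abs_le.mp hβ1).1]
  have h8 : |Y| = (e * |i|) * (n : ℝ) ^ (D - a) * (1 + β) := by
    rw [h4, abs_mul, abs_mul, abs_mul, Nat.abs_cast, abs_of_pos h7,
      abs_of_pos (pow_pos hn0 (D - a))]
  refine size_contra n B (D - a) (e * |i|) T β hn ?_ ?_ hT hβ1 (by rw [← hYB, h8])
  · rw [abs_of_nonneg (by positivity)]; exact hi
  · rw [abs_of_nonneg (by positivity)]; linarith

end Pool.Agent.helper616_fc
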