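import Mathlib
import Pool.Agent.helper616_fc.Near

/-!
# Bases near powers of a common integer: the core lemma
-/

set_option autoImplicit false

namespace Pool.Agent.helper616_fc

/-- the distance of an integer to a power is `0` or at least one -/
theorem dist_int (x n a : ℕ) : ((x : ℝ) - (n : ℝ) ^ a = 0 ∧ x = n ^ a) ∨ 1 ≤ |(x : ℝ) - (n : ℝ) ^ a| := by
  by_cases h : x = n ^ a
  · left
    refine ⟨?_, h⟩
    rw [h]; push_cast; ring
  · right
    have h1 : ((x : ℤ) - (n : ℤ) ^ a) ≠ 0 := by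
      intro h2
      apply h
      have : (x : ℤ) = (n : ℤ) ^ a := by linarith
      exact_mod_cast this
    have h2 := Int.one_le_abs h1
    have h3 : ((1 : ℤ) : ℝ) ≤ ((|(x : ℤ) - (n : ℤ) ^ a| : ℤ) : ℝ) := by exact_mod_cast h2
    push_cast at h3
    exact h3

theorem two_le (s t : ℝ) (hs : 2 ≤ s) (ht : 1 ≤ t) : 2 ≤ s * t := by nlinarith

/-- the case `a = c` -/
theorem eq_case (n a p B : ℕ) (i k T : ℝ) (hn : 200 ≤ n) (ha : 1 ≤ a) (hp : 2 ≤ p)
    (hi : (p : ℝ) * |i| ≤ n / 100) (hk : (p : ℝ) * |k| ≤ n / 100) (hik : 1 ≤ |k - i|)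
    (hT : |T| ≤ 3 / 100)
    (h : |((n : ℝ) ^ a + k) ^ p - ((n : ℝ) ^ a + i) ^ p| = (n : ℝ) ^ B * (1 + T)) : False := by
  have hn' : (200 : ℝ) ≤ n := by exact_mod_cast hn
  have hn0 : (0 : ℝ) < n := by linarith
  have hna : 0 < (n : ℝ) ^ a := pow_pos hn0 _
  obtain ⟨i1, i2, i3⟩ := pow_form n a p i hn ha (by omega) hi
  obtain ⟨k1, k2, k3⟩ := pow_form n a p k hn ha (by omega) hk
  set s := k / (n : ℝ) ^ a with hs
  set t := i / (n : ℝ) ^ a with ht
  have hp0 : (0 : ℝ) < p := by exact_mod_cast (by omega : 0 < p)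
  -- each term of the geometric sum is near one
  have hterm : ∀ j ∈ Finset.range p, |(1 + s) ^ j * (1 + t) ^ (p - 1 - j) - 1| ≤ 25 / 1000 := by
    intro j hj
    have hjp : j ≤ p := (Finset.mem_range.mp hj).le
    have hj2 : p - 1 - j ≤ p := by omega
    have c1 : |(j : ℝ) * s| ≤ 1 / 100 := by
      refine le_trans ?_ k1
      rw [abs_mul, abs_mul, Nat.abs_cast, Nat.abs_cast]
      exact mul_le_mul_of_nonneg_right (by exact_mod_cast hjp) (abs_nonneg _)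
    have c2 : |((p - 1 - j : ℕ) : ℝ) * t| ≤ 1 / 100 := by
      refine le_trans ?_ i1
      rw [abs_mul, abs_mul, Nat.abs_cast, Nat.abs_cast]
      exact mul_le_mul_of_nonneg_right (by exact_mod_cast hj2) (abs_nonneg _)
    obtain ⟨d1, d2⟩ := pow_one_add s j c1 k2
    obtain ⟨e1, e2⟩ := pow_one_add t (p - 1 - j) c2 i2
    have d3 := sq_small _ c1
    have e3 := sq_small _ c2
    obtain ⟨f1, f2⟩ := abs_le.mp c1
    obtain ⟨g1, g2⟩ := abs_le.mp c2
    set A := (1 + s) ^ j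
    set B' := (1 + t) ^ (p - 1 - j)
    have hA1 : 99 / 100 ≤ A := by linarith
    have hA2 : A ≤ 1 + 101 / 10000 := by
      have : (↑j * s) ^ 2 ≤ 1 / 10000 := by linarith
      linarith
    have hB1 : 99 / 100 ≤ B' := by linarith
    have hB2 : B' ≤ 1 + 101 / 10000 := by
      have : (((p - 1 - j : ℕ) : ℝ) * t) ^ 2 ≤ 1 / 10000 := by linarith
      linarith
    rw [abs_le]
    constructor <;> nlinarith
  set S := ∑ j ∈ Finset.range p, (1 + s) ^ j * (1 + t) ^ (p - 1 - j) with hS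
  have hS1 : |S - p| ≤ p * (25 / 1000) := by
    have : S - p = ∑ j ∈ Finset.range p, ((1 + s) ^ j * (1 + t) ^ (p - 1 - j) - 1) := by
      rw [Finset.sum_sub_distrib]; simp [hS]
    rw [this]
    refine (Finset.abs_sum_le_sum_abs _ _).trans ?_
    refine (Finset.sum_le_sum hterm).trans ?_
    simp
  have hfac : (1 + s) ^ p - (1 + t) ^ p = S * (s - t) := by
    have := (geom_sum₂_mul (1 + s) (1 + t) p)
    rw [hS, ← this]; ring
  set β : ℝ := S / p - 1 with hβ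
  have hβ1 : |β| ≤ 3 / 100 := by
    have : β = (S - p) / p := by rw [hβ]; field_simp
    rw [this, abs_div, abs_of_pos hp0, div_le_iff₀ hp0]
    linarith
  have hSβ : S = p * (1 + β) := by rw [hβ]; field_simp; ring
  have h1 : ((n : ℝ) ^ a + k) ^ p - ((n : ℝ) ^ a + i) ^ p =
      (p * (k - i)) * (n : ℝ) ^ (a * p - a) * (1 + β) := by
    rw [k3, i3]
    have h2 : (n : ℝ) ^ (a * p) = (n : ℝ) ^ (a * p - a) * (n : ℝ) ^ a := by
      rw [← pow_add]; congr 1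
      have : a ≤ a * p := Nat.le_mul_of_pos_right a (by omega)
      omega
    have h3 : s - t = (k - i) / (n : ℝ) ^ a := by rw [hs, ht]; ring
    calc (n : ℝ) ^ (a * p) * (1 + s) ^ p - (n : ℝ) ^ (a * p) * (1 + t) ^ p
        = (n : ℝ) ^ (a * p) * ((1 + s) ^ p - (1 + t) ^ p) := by ring
      _ = (n : ℝ) ^ (a * p - a) * (n : ℝ) ^ a * (p * (1 + β) * ((k - i) / (n : ℝ) ^ a)) := by
          rw [hfac, hSβ, h3, h2]
      _ = _ := by field_simp
  have h7 : 0 < 1 + β := by linarith [(abs_le.mp hβ1).1]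
  have h8 : |((n : ℝ) ^ a + k) ^ p - ((n : ℝ) ^ a + i) ^ p| =
      (p * |k - i|) * (n : ℝ) ^ (a * p - a) * (1 + β) := by
    rw [h1, abs_mul, abs_mul, abs_mul, Nat.abs_cast, abs_of_pos h7,
      abs_of_pos (pow_pos hn0 (a * p - a))]
  have hp2 : (2 : ℝ) ≤ p := by exact_mod_cast hp
  refine size_contra n B (a * p - a) (p * |k - i|) T β hn ?_ ?_ hT hβ1 (by rw [← h, h8])
  · rw [abs_of_nonneg (by positivity)]; nlinarith
  · rw [abs_of_nonneg (by positivity)]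
    have := abs_sub k i
    nlinarith [abs_nonneg k, abs_nonneg i]

/-- **The core lemma**: `z ^ r - x ^ p = ± y ^ q` with `y ^ q ≤ x ^ p` is impossible. -/
theorem core_one (n a b c p q r x y z : ℕ) (hn : 200 ≤ n) (ha : 1 ≤ a) (hb : 1 ≤ b) (hc : 1 ≤ c)
    (hp : 2 ≤ p) (hq : 2 ≤ q) (hr : 2 ≤ r)
    (hpi : (p : ℝ) * |(x : ℝ) - (n : ℝ) ^ a| ≤ n / 100)
    (hpk : (p : ℝ) * |(z : ℝ) - (n : ℝ) ^ c| ≤ n / 100)
    (hqj : (q : ℝ) * |(y : ℝ) - (n : ℝ) ^ b| ≤ n / 100)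
    (hrk : (r : ℝ) * |(z : ℝ) - (n : ℝ) ^ c| ≤ n / 100)
    (hco : Nat.Coprime x z) (heq : x ^ p + y ^ q = z ^ r) (hle : y ^ q ≤ x ^ p) (hy : 0 < y) :
    False := by
  have hn' : (200 : ℝ) ≤ n := by exact_mod_cast hn
  have hn0 : (0 : ℝ) < n := by linarith
  obtain ⟨i, hi⟩ : ∃ i : ℝ, i = (x : ℝ) - (n : ℝ) ^ a := ⟨_, rfl⟩
  obtain ⟨j, hj⟩ : ∃ j : ℝ, j = (y : ℝ) - (n : ℝ) ^ b := ⟨_, rfl⟩
  obtain ⟨k, hk⟩ : ∃ k : ℝ, k = (z : ℝ) - (n : ℝ) ^ c := ⟨_, rfl⟩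
  rw [← hi] at hpi
  rw [← hk] at hpk hrk
  rw [← hj] at hqj
  obtain ⟨x1, x2, x3⟩ := pow_form n a p i hn ha (by omega) hpi
  obtain ⟨y1, y2, y3⟩ := pow_form n b q j hn hb (by omega) hqj
  obtain ⟨z1, z2, z3⟩ := pow_form n c r k hn hc (by omega) hrk
  obtain ⟨X1, X2⟩ := pow_one_add _ p x1 x2
  obtain ⟨Y1, Y2⟩ := pow_one_add _ q y1 y2
  obtain ⟨Z1, Z2⟩ := pow_one_add _ r z1 z2
  have hx : (x : ℝ) = (n : ℝ) ^ a + i := by rw [hi]; ring
  have hyy : (y : ℝ) = (n : ℝ) ^ b + j := by rw [hj]; ring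
  have hz : (z : ℝ) = (n : ℝ) ^ c + k := by rw [hk]; ring
  set v := (p : ℝ) * (i / (n : ℝ) ^ a) with hv
  set w := (q : ℝ) * (j / (n : ℝ) ^ b) with hw
  set u := (r : ℝ) * (k / (n : ℝ) ^ c) with hu
  obtain ⟨θ, hθ⟩ : ∃ θ : ℝ, θ = (1 + i / (n : ℝ) ^ a) ^ p - 1 - v := ⟨_, rfl⟩
  obtain ⟨θy, hθy⟩ : ∃ θ : ℝ, θ = (1 + j / (n : ℝ) ^ b) ^ q - 1 - w := ⟨_, rfl⟩
  obtain ⟨θz, hθz⟩ : ∃ θ : ℝ, θ = (1 + k / (n : ℝ) ^ c) ^ r - 1 - u := ⟨_, rfl⟩
  rw [← hθ] at X1 X2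
  rw [← hθy] at Y1 Y2
  rw [← hθz] at Z1 Z2
  have hX : (x : ℝ) ^ p = (n : ℝ) ^ (a * p) * (1 + (v + θ)) := by rw [hx, x3, hθ]; ring
  have hY : (y : ℝ) ^ q = (n : ℝ) ^ (b * q) * (1 + (w + θy)) := by rw [hyy, y3, hθy]; ring
  have hZ : (z : ℝ) ^ r = (n : ℝ) ^ (c * r) * (1 + (u + θz)) := by rw [hz, z3, hθz]; ring
  have hv2 := sq_small v x1
  have hw2 := sq_small w y1
  have hu2 := sq_small u z1
  have hvb : |v + θ| ≤ 15 / 1000 := by
    have := abs_add_le v θ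
    rw [abs_of_nonneg X1] at this
    linarith
  have hwb : |w + θy| ≤ 15 / 1000 := by
    have := abs_add_le w θy
    rw [abs_of_nonneg Y1] at this
    linarith
  have hub : |u + θz| ≤ 15 / 1000 := by
    have := abs_add_le u θz
    rw [abs_of_nonneg Z1] at this
    linarith
  obtain ⟨hv3, hv4⟩ := abs_le.mp hvb
  obtain ⟨hu3, hu4⟩ := abs_le.mp hub
  have heqR : (x : ℝ) ^ p + (y : ℝ) ^ q = (z : ℝ) ^ r := by exact_mod_cast heq
  have hleR : (y : ℝ) ^ q ≤ (x : ℝ) ^ p := by exact_mod_cast hle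
  have hYpos : 0 < (y : ℝ) ^ q := by positivity
  have hD : c * r = a * p := by
    rcases Nat.lt_trichotomy (c * r) (a * p) with h | h | h
    · exfalso
      have h1 : (n : ℝ) * (n : ℝ) ^ (c * r) ≤ (n : ℝ) ^ (a * p) := by
        rw [← pow_succ']
        exact pow_le_pow_right₀ (by linarith) h
      have h2 : 0 < (n : ℝ) ^ (c * r) := pow_pos hn0 _
      have h3 : (z : ℝ) ^ r ≤ (n : ℝ) ^ (c * r) * (102 / 100) := by
        rw [hZ]; exact mul_le_mul_of_nonneg_left (by linarith) h2.le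
      have h4 : (n : ℝ) * (n : ℝ) ^ (c * r) * (98 / 100) ≤ (x : ℝ) ^ p := by
        rw [hX]; exact mul_le_mul h1 (by linarith) (by norm_num) (by positivity)
      have h5 : 200 * (n : ℝ) ^ (c * r) ≤ (n : ℝ) * (n : ℝ) ^ (c * r) :=
        mul_le_mul_of_nonneg_right hn' h2.le
      linarith
    · exact h
    · exfalso
      have h1 : (n : ℝ) * (n : ℝ) ^ (a * p) ≤ (n : ℝ) ^ (c * r) := by
        rw [← pow_succ']
        exact pow_le_pow_right₀ (by linarith) h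
      have h2 : 0 < (n : ℝ) ^ (a * p) := pow_pos hn0 _
      have h3 : (x : ℝ) ^ p ≤ (n : ℝ) ^ (a * p) * (102 / 100) := by
        rw [hX]; exact mul_le_mul_of_nonneg_left (by linarith) h2.le
      have h4 : (n : ℝ) * (n : ℝ) ^ (a * p) * (98 / 100) ≤ (z : ℝ) ^ r := by
        rw [hZ]; exact mul_le_mul h1 (by linarith) (by norm_num) (by positivity)
      have h5 : 200 * (n : ℝ) ^ (a * p) ≤ (n : ℝ) * (n : ℝ) ^ (a * p) :=
        mul_le_mul_of_nonneg_right hn' h2.le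
      linarith
  have hp1 : (2 : ℝ) ≤ p := by exact_mod_cast hp
  have hr1 : (2 : ℝ) ≤ r := by exact_mod_cast hr
  have hYabs : |(y : ℝ) ^ q| = (n : ℝ) ^ (b * q) * (1 + (w + θy)) := by
    rw [abs_of_pos hYpos, hY]
  have hYneg : |-((y : ℝ) ^ q)| = (n : ℝ) ^ (b * q) * (1 + (w + θy)) := by
    rw [abs_neg, abs_of_pos hYpos, hY]
  have hw5 : |w + θy| ≤ 3 / 100 := by linarith
  have hapD : a ≤ a * p := Nat.le_mul_of_pos_right a (by omega)
  have hcrD : c ≤ c * r := Nat.le_mul_of_pos_right c (by omega)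
  have hdiff : (y : ℝ) ^ q = (n : ℝ) ^ (c * r) * ((u + θz) - (v + θ)) := by
    have : (y : ℝ) ^ q = (z : ℝ) ^ r - (x : ℝ) ^ p := by linarith
    rw [this, hZ, hX, hD]; ring
  have hdiff' : -(y : ℝ) ^ q = (n : ℝ) ^ (a * p) * ((v + θ) - (u + θz)) := by
    rw [hdiff, hD]; ring
  have hint : (i = 0 ∧ x = n ^ a) ∨ 1 ≤ |i| := by rw [hi]; exact dist_int x n a
  have hknt : (k = 0 ∧ z = n ^ c) ∨ 1 ≤ |k| := by rw [hk]; exact dist_int z n c
  -- not both `i` and `k` vanish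
  have hnot : ¬ (x = n ^ a ∧ z = n ^ c) := by
    rintro ⟨h1, h2⟩
    have h3 : n ∣ Nat.gcd x z := by
      rw [h1, h2]
      exact Nat.dvd_gcd (dvd_pow_self n (by omega)) (dvd_pow_self n (by omega))
    rw [hco] at h3
    have := Nat.le_of_dvd one_pos h3
    omega
  have hna : 0 < (n : ℝ) ^ a := pow_pos hn0 _
  have hnc : 0 < (n : ℝ) ^ c := pow_pos hn0 _
  have habsv : |v| = (p * |i|) / (n : ℝ) ^ a := by
    rw [hv, abs_mul, abs_div, abs_of_pos hna, Nat.abs_cast]; ring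
  have habsu : |u| = (r * |k|) / (n : ℝ) ^ c := by
    rw [hu, abs_mul, abs_div, abs_of_pos hnc, Nat.abs_cast]; ring
  rcases Nat.lt_trichotomy a c with hac | hac | hac
  · -- `a < c`
    rcases hint with ⟨hi0, hxa⟩ | hi1
    · have hk1 : 1 ≤ |k| := by
        rcases hknt with ⟨_, h2⟩ | h2
        · exact absurd ⟨hxa, h2⟩ hnot
        · exact h2
      have hv0 : v = 0 := by rw [hv, hi0]; ring
      refine dom u ((y : ℝ) ^ q) (w + θy) r n (b * q) (c * r) k v θz θ c hn hcrD ?_ hrk hu z1 ?_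
        ⟨Z1, Z2⟩ ⟨X1, X2⟩ hdiff hw5 hYabs
      · exact two_le _ _ hr1 hk1
      · rw [hv0, abs_zero]; positivity
    · refine dom v (-(y : ℝ) ^ q) (w + θy) p n (b * q) (a * p) i u θ θz a hn hapD ?_ hpi hv x1 ?_
        ⟨X1, X2⟩ ⟨Z1, Z2⟩ hdiff' hw5 hYneg
      · exact two_le _ _ hp1 hi1
      · rw [habsu, habsv, div_div, div_le_div_iff₀ hnc (by positivity)]
        have h1 : (n : ℝ) * (n : ℝ) ^ a ≤ (n : ℝ) ^ c := by
          rw [← pow_succ']
          exact pow_le_pow_right₀ (by linarith) hac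
        have h2 : (2 : ℝ) ≤ p * |i| := two_le _ _ hp1 hi1
        calc (r : ℝ) * |k| * ((n : ℝ) ^ a * 200) ≤ (n / 100) * ((n : ℝ) ^ a * 200) :=
              mul_le_mul_of_nonneg_right hrk (by positivity)
          _ = 2 * ((n : ℝ) * (n : ℝ) ^ a) := by ring
          _ ≤ 2 * (n : ℝ) ^ c := by linarith
          _ ≤ p * |i| * (n : ℝ) ^ c := mul_le_mul_of_nonneg_right h2 hnc.le
  · -- `a = c`
    subst hac
    have hrp : r = p := Nat.eq_of_mul_eq_mul_left (by omega) hD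
    subst hrp
    have hik : 1 ≤ |k - i| := by
      have h1 : k - i = (z : ℝ) - x := by rw [hk, hi]; ring
      rw [h1]
      have h2 : ((z : ℤ) - (x : ℤ)) ≠ 0 := by
        intro h3
        have h4 : z = x := by
          have : (z : ℤ) = x := by linarith
          exact_mod_cast this
        rw [h4] at heq
        have : 0 < y ^ q := Nat.pow_pos hy
        omega
      have h3 := Int.one_le_abs h2
      have h4 : ((1 : ℤ) : ℝ) ≤ ((|(z : ℤ) - (x : ℤ)| : ℤ) : ℝ) := by exact_mod_cast h3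
      push_cast at h4
      exact h4
    refine eq_case n a r (b * q) i k (w + θy) hn ha hr hpi hpk hik hw5 ?_
    rw [← hz, ← hx, ← hYabs]
    congr 1
    linarith
  · -- `c < a`
    rcases hknt with ⟨hk0, hzc⟩ | hk1
    · have hi1 : 1 ≤ |i| := by
        rcases hint with ⟨_, h2⟩ | h2
        · exact absurd ⟨h2, hzc⟩ hnot
        · exact h2
      have hu0 : u = 0 := by rw [hu, hk0]; ring
      refine dom v (-(y : ℝ) ^ q) (w + θy) p n (b * q) (a * p) i u θ θz a hn hapD ?_ hpi hv x1 ?_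
        ⟨X1, X2⟩ ⟨Z1, Z2⟩ hdiff' hw5 hYneg
      · exact two_le _ _ hp1 hi1
      · rw [hu0, abs_zero]; positivity
    · refine dom u ((y : ℝ) ^ q) (w + θy) r n (b * q) (c * r) k v θz θ c hn hcrD ?_ hrk hu z1 ?_
        ⟨Z1, Z2⟩ ⟨X1, X2⟩ hdiff hw5 hYabs
      · exact two_le _ _ hr1 hk1
      · rw [habsu, habsv, div_div, div_le_div_iff₀ hna (by positivity)]
        have h1 : (n : ℝ) * (n : ℝ) ^ c ≤ (n : ℝ) ^ a := by
          rw [← pow_succ']
          exact pow_le_pow_right₀ (by linarith) hac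
        have h2 : (2 : ℝ) ≤ r * |k| := two_le _ _ hr1 hk1
        calc (p : ℝ) * |i| * ((n : ℝ) ^ c * 200) ≤ (n / 100) * ((n : ℝ) ^ c * 200) :=
              mul_le_mul_of_nonneg_right hpi (by positivity)
          _ = 2 * ((n : ℝ) * (n : ℝ) ^ c) := by ring
          _ ≤ 2 * (n : ℝ) ^ a := by linarith
          _ ≤ r * |k| * (n : ℝ) ^ a := mul_le_mul_of_nonneg_right h2 hna.le

end Pool.Agent.helper616_fc
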