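import Mathlib

/-!
# Bases of solutions of the Fermat-Catalan equation
-/

set_option autoImplicit false

namespace Pool.Agent.helper616_fc

/-- `x`, `y`, `z` are the bases of a solution of the Fermat-Catalan equation: they are positive and
pairwise coprime, and for some exponents `p, q, r ≥ 2` with `1/p + 1/q + 1/r ≤ 1` one of the powers
`x ^ p`, `y ^ q`, `z ^ r` is the sum of the two others -/
def Bases (x y z : ℕ) : Prop :=
  0 < x ∧ 0 < y ∧ 0 < z ∧ Nat.Coprime x y ∧ Nat.Coprime x z ∧ Nat.Coprime y z ∧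
    ∃ p q r : ℕ, 2 ≤ p ∧ 2 ≤ q ∧ 2 ≤ r ∧ (1 : ℚ) / p + 1 / q + 1 / r ≤ 1 ∧
      (x ^ p + y ^ q = z ^ r ∨ x ^ p + z ^ r = y ^ q ∨ y ^ q + z ^ r = x ^ p)

end Pool.Agent.helper616_fc
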