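import Mathlib
import Pool.Agent.helper616_fc.Defs
import Pool.Agent.Y902.FB.ExR

/-!
# The number of solutions on a one-parameter polynomial family
-/

set_option autoImplicit false

open Polynomial

namespace Pool.Agent.helper616_fc

/-- a common factor over the integers -/
theorem common (F G : ℤ[X]) (hF : F ≠ 0)
    (h : ¬ IsCoprime (F.map (Int.castRingHom ℚ)) (G.map (Int.castRingHom ℚ))) :
    ∃ d : ℤ[X], 0 < d.natDegree ∧ d ∣ F ∧ d ∣ G := by
  classical
  set f := F.map (Int.castRingHom ℚ) with hf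
  set g := G.map (Int.castRingHom ℚ) with hg
  have hf0 : f ≠ 0 := by
    rw [hf, Ne, Polynomial.map_eq_zero_iff (Int.cast_injective (α := ℚ))]
    exact hF
  set e := EuclideanDomain.gcd f g with he
  have hef : e ∣ f := EuclideanDomain.gcd_dvd_left f g
  have heg : e ∣ g := EuclideanDomain.gcd_dvd_right f g
  have he0 : e ≠ 0 := fun h0 => hf0 (by rw [h0] at hef; exact zero_dvd_iff.mp hef)
  have heu : ¬ IsUnit e := fun hu => h (EuclideanDomain.gcd_isUnit_iff.mp hu)
  have hed : 0 < e.natDegree := by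
    by_contra hc
    exact heu (Polynomial.isUnit_iff_degree_eq_zero.mpr
      (by rw [Polynomial.degree_eq_natDegree he0]; norm_cast; omega))
  set m := IsLocalization.integerNormalization (nonZeroDivisors ℤ) e with hm
  obtain ⟨c, c0, hc⟩ := IsLocalization.integerNormalization_spec (nonZeroDivisors ℤ) e
  have hcne : (c : ℤ) ≠ 0 := nonZeroDivisors.ne_zero c0
  have hcQ : ((c : ℤ) : ℚ) ≠ 0 := by exact_mod_cast hcne
  have hc' : m.map (Int.castRingHom ℚ) = Polynomial.C ((c : ℤ) : ℚ) * e := by
    have h1 : m.map (algebraMap ℤ ℚ) = c • e := hc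
    have h2 : (c • e : ℚ[X]) = Polynomial.C ((c : ℤ) : ℚ) * e := by
      ext i
      simp
    rw [← h2, ← h1]
    rfl
  have hmd : m.natDegree = e.natDegree := by
    have h1 : (m.map (Int.castRingHom ℚ)).natDegree = m.natDegree :=
      Polynomial.natDegree_map_eq_of_injective (Int.cast_injective (α := ℚ)) m
    rw [← h1, hc', Polynomial.natDegree_C_mul hcQ]
  have hpd : m.primPart.natDegree = m.natDegree := Polynomial.natDegree_primPart m
  have hprim : m.primPart.IsPrimitive := Polynomial.isPrimitive_primPart m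
  have hdiv : m.primPart.map (Int.castRingHom ℚ) ∣ e := by
    have h1 : m.primPart ∣ m := ⟨Polynomial.C m.content, by
      rw [mul_comm]; exact m.eq_C_content_mul_primPart⟩
    have h2 : m.primPart.map (Int.castRingHom ℚ) ∣ m.map (Int.castRingHom ℚ) :=
      Polynomial.map_dvd _ h1
    rw [hc'] at h2
    have hu : IsUnit (Polynomial.C ((c : ℤ) : ℚ)) := Polynomial.isUnit_C.mpr (isUnit_iff_ne_zero.mpr hcQ)
    exact (hu.dvd_mul_left).mp h2
  refine ⟨m.primPart, by omega, ?_, ?_⟩
  · rw [Polynomial.IsPrimitive.Int.dvd_iff_map_cast_dvd_map_cast _ _ hprim]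
    exact hdiv.trans hef
  · rw [Polynomial.IsPrimitive.Int.dvd_iff_map_cast_dvd_map_cast _ _ hprim]
    exact hdiv.trans heg

/-- the exponents can be chosen small, also for the base one -/
theorem small_exp : ∃ (C : ℝ) (κ : ℕ), 0 < C ∧ ∀ x y z : ℕ, Bases x y z → ∀ B : ℕ, 3 ≤ B →
    x ≤ B → y ≤ B → z ≤ B → ∃ p q r : ℕ, p ≠ 0 ∧ q ≠ 0 ∧ r ≠ 0 ∧ q * r + r * p + p * q ≤ p * q * r ∧
      (p : ℝ) ≤ C * Real.log B ^ κ ∧ (q : ℝ) ≤ C * Real.log B ^ κ ∧ (r : ℝ) ≤ C * Real.log B ^ κ ∧
      (x ^ p + y ^ q = z ^ r ∨ x ^ p + z ^ r = y ^ q ∨ y ^ q + z ^ r = x ^ p) := by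
  obtain ⟨C₀, κ, hC₀, h⟩ := Pool.Agent.Y902.FB.exp_bound_real
  refine ⟨C₀ + 6, κ, by positivity, ?_⟩
  rintro x y z ⟨hx, hy, hz, hxy, hxz, hyz, p, q, r, hp, hq, hr, hpqr, heq⟩ B hB hxB hyB hzB
  have hB3 : (3 : ℝ) ≤ B := by exact_mod_cast hB
  have hL1 : 1 ≤ Real.log (B : ℝ) := by
    have h1 : Real.exp 1 ≤ (B : ℝ) := by
      have := Real.exp_one_lt_d9
      linarith
    rw [Real.le_log_iff_exp_le (by linarith)]
    exact h1
  have hLκ : 1 ≤ Real.log (B : ℝ) ^ κ := one_le_pow₀ hL1
  have hmax : ∀ u v w : ℕ, 0 < u → u ≤ B → v ≤ B → w ≤ B →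
      Real.log ((max u (max v w) : ℕ) : ℝ) ^ κ ≤ Real.log (B : ℝ) ^ κ := by
    intro u v w hu hu' hv hw
    have h1 : max u (max v w) ≤ B := max_le hu' (max_le hv hw)
    have h2 : 0 < max u (max v w) := lt_of_lt_of_le hu (le_max_left _ _)
    have h3 : (1 : ℝ) ≤ ((max u (max v w) : ℕ) : ℝ) := by exact_mod_cast h2
    apply pow_le_pow_left₀ (Real.log_nonneg h3)
    apply Real.log_le_log (by linarith)
    exact_mod_cast h1
  -- the bounds for the exponents of the bases `≥ 2`
  have hb : (2 ≤ x → (p : ℝ) ≤ C₀ * Real.log B ^ κ) ∧ (2 ≤ y → (q : ℝ) ≤ C₀ * Real.log B ^ κ) ∧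
      (2 ≤ z → (r : ℝ) ≤ C₀ * Real.log B ^ κ) := by
    rcases heq with heq | heq | heq
    · obtain ⟨e1, e2, e3⟩ := h x y z p q r hx hy hz hxy hxz hyz hp hq hr heq
      have hm := mul_le_mul_of_nonneg_left (hmax x y z hx hxB hyB hzB) hC₀.le
      exact ⟨fun hh => (e1 hh).trans hm, fun hh => (e2 hh).trans hm, fun _ => e3.trans hm⟩
    · obtain ⟨e1, e2, e3⟩ := h x z y p r q hx hz hy hxz hxy hyz.symm hp hr hq heq
      have hm := mul_le_mul_of_nonneg_left (hmax x z y hx hxB hzB hyB) hC₀.le
      exact ⟨fun hh => (e1 hh).trans hm, fun _ => e3.trans hm, fun hh => (e2 hh).trans hm⟩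
    · obtain ⟨e1, e2, e3⟩ := h y z x q r p hy hz hx hyz hxy.symm hxz.symm hq hr hp heq
      have hm := mul_le_mul_of_nonneg_left (hmax y z x hy hyB hzB hxB) hC₀.le
      exact ⟨fun _ => e3.trans hm, fun hh => (e1 hh).trans hm, fun hh => (e2 hh).trans hm⟩
  obtain ⟨b1, b2, b3⟩ := hb
  have hpos : 0 < C₀ * Real.log B ^ κ := by positivity
  have h6 : (6 : ℝ) ≤ (C₀ + 6) * Real.log B ^ κ := by nlinarith
  have hle : C₀ * Real.log B ^ κ ≤ (C₀ + 6) * Real.log B ^ κ := by nlinarith
  -- the inequality for the exponents in terms of natural numbers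
  have hnat : q * r + r * p + p * q ≤ p * q * r := by
    have hp0 : (0 : ℚ) < p := by exact_mod_cast (by omega : 0 < p)
    have hq0 : (0 : ℚ) < q := by exact_mod_cast (by omega : 0 < q)
    have hr0 : (0 : ℚ) < r := by exact_mod_cast (by omega : 0 < r)
    have h1 : (1 : ℚ) / p + 1 / q + 1 / r = (q * r + r * p + p * q) / (p * q * r) := by
      field_simp
    rw [h1, div_le_one (by positivity)] at hpqr
    exact_mod_cast hpqr
  have key : ∀ s t : ℕ, 2 ≤ s → 2 ≤ t → ¬ (s = 2 ∧ t = 2) →
      s * t + t * 6 + 6 * s ≤ 6 * s * t := by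
    intro s t hs ht hst
    rcases Nat.lt_or_ge 2 s with h1 | h1
    · nlinarith
    · have h2 : s = 2 := by omega
      subst h2
      have : 3 ≤ t := by
        rcases Nat.lt_or_ge 2 t with h3 | h3
        · omega
        · exact absurd ⟨rfl, by omega⟩ hst
      omega
  have n1 : ¬ (q = 2 ∧ r = 2) := by
    rintro ⟨rfl, rfl⟩; omega
  have n2 : ¬ (p = 2 ∧ r = 2) := by
    rintro ⟨rfl, rfl⟩; omega
  have n3 : ¬ (p = 2 ∧ q = 2) := by
    rintro ⟨rfl, rfl⟩; omega
  rcases Nat.lt_or_ge x 2 with hx1 | hx2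
  · -- `x = 1`
    have hx1 : x = 1 := by omega
    subst hx1
    have hy2 : 2 ≤ y := by
      by_contra hc
      have : y = 1 := by omega
      subst this
      rcases heq with h1 | h1 | h1
      · rw [one_pow, one_pow] at h1
        have hz2 : 2 ≤ z := by
          by_contra hz1
          have : z = 1 := by omega
          rw [this, one_pow] at h1; omega
        have : 2 ^ 2 ≤ z ^ r := (Nat.pow_le_pow_left hz2 2).trans (Nat.pow_le_pow_right (by omega) hr)
        omega
      · rw [one_pow, one_pow] at h1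
        have : 0 < z ^ r := Nat.pow_pos hz
        omega
      · rw [one_pow, one_pow] at h1
        have : 0 < z ^ r := Nat.pow_pos hz
        omega
    have hz2 : 2 ≤ z := by
      by_contra hc
      have : z = 1 := by omega
      subst this
      rcases heq with h1 | h1 | h1
      · rw [one_pow, one_pow] at h1
        have : 0 < y ^ q := Nat.pow_pos hy
        omega
      · rw [one_pow, one_pow] at h1
        have : 2 ^ 2 ≤ y ^ q := (Nat.pow_le_pow_left hy2 2).trans (Nat.pow_le_pow_right (by omega) hq)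
        omega
      · rw [one_pow, one_pow] at h1
        have : 0 < y ^ q := Nat.pow_pos hy
        omega
    refine ⟨6, q, r, by norm_num, by omega, by omega, ?_, ?_, (b2 hy2).trans hle, (b3 hz2).trans hle, ?_⟩
    · exact key q r hq hr n1
    · exact_mod_cast h6
    · simpa using heq
  · rcases Nat.lt_or_ge y 2 with hy1 | hy2
    · -- `y = 1`
      have hy1 : y = 1 := by omega
      subst hy1
      have hz2 : 2 ≤ z := by
        by_contra hc
        have : z = 1 := by omega
        subst this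
        rcases heq with h1 | h1 | h1
        · rw [one_pow, one_pow] at h1
          have : 0 < x ^ p := Nat.pow_pos hx
          omega
        · rw [one_pow, one_pow] at h1
          have : 0 < x ^ p := Nat.pow_pos hx
          omega
        · rw [one_pow, one_pow] at h1
          have : 2 ^ 2 ≤ x ^ p :=
            (Nat.pow_le_pow_left hx2 2).trans (Nat.pow_le_pow_right (by omega) hp)
          omega
      refine ⟨p, 6, r, by omega, by norm_num, by omega, ?_, (b1 hx2).trans hle, ?_,
        (b3 hz2).trans hle, ?_⟩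
      · have := key p r hp hr n2; nlinarith
      · exact_mod_cast h6
      · simpa using heq
    · rcases Nat.lt_or_ge z 2 with hz1 | hz2
      · have hz1 : z = 1 := by omega
        subst hz1
        refine ⟨p, q, 6, by omega, by omega, by norm_num, ?_, (b1 hx2).trans hle,
          (b2 hy2).trans hle, ?_, ?_⟩
        · have := key p q hp hq n3; nlinarith
        · exact_mod_cast h6
        · simpa using heq
      · exact ⟨p, q, r, by omega, by omega, by omega, hnat, (b1 hx2).trans hle, (b2 hy2).trans hle,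
          (b3 hz2).trans hle, heq⟩

end Pool.Agent.helper616_fc
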