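import Mathlib
import Pool.Agent.helper616_fc.Uni

/-!
# The number of solutions on a one-parameter polynomial family: the count
-/

set_option autoImplicit false

open Polynomial

namespace Pool.Agent.helper616_fc

/-- the polynomial of the equation -/
noncomputable def pol (F G K : ℤ[X]) (s : ℤ × ℤ × ℤ) (e : ℕ × ℕ × ℕ) : ℤ[X] :=
  C s.1 * F ^ e.1 + C s.2.1 * G ^ e.2.1 + C s.2.2 * K ^ e.2.2

theorem pol_natDegree (F G K : ℤ[X]) (s : ℤ × ℤ × ℤ) (e : ℕ × ℕ × ℕ) (D E : ℕ)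
    (hF : F.natDegree ≤ D) (hG : G.natDegree ≤ D) (hK : K.natDegree ≤ D)
    (h1 : e.1 ≤ E) (h2 : e.2.1 ≤ E) (h3 : e.2.2 ≤ E) : (pol F G K s e).natDegree ≤ E * D := by
  have key : ∀ (c : ℤ) (P : ℤ[X]) (k : ℕ), P.natDegree ≤ D → k ≤ E →
      (C c * P ^ k).natDegree ≤ E * D := by
    intro c P k hP hk
    refine (natDegree_C_mul_le _ _).trans ((natDegree_pow_le).trans ?_)
    exact Nat.mul_le_mul hk hP
  unfold pol
  refine (natDegree_add_le _ _).trans (max_le ((natDegree_add_le _ _).trans (max_le ?_ ?_)) ?_)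
  · exact key _ _ _ hF h1
  · exact key _ _ _ hG h2
  · exact key _ _ _ hK h3

/-- a nonzero polynomial by the Mason-Stothers theorem -/
theorem pol_ne_zero (F G K : ℤ[X]) (s : ℤ × ℤ × ℤ) (e : ℕ × ℕ × ℕ)
    (hF : F ≠ 0) (hG : G ≠ 0) (hK : K ≠ 0) (hs1 : s.1 ≠ 0) (hs2 : s.2.1 ≠ 0) (hs3 : s.2.2 ≠ 0)
    (hp : e.1 ≠ 0) (hq : e.2.1 ≠ 0) (hr : e.2.2 ≠ 0)
    (h : e.2.1 * e.2.2 + e.2.2 * e.1 + e.1 * e.2.1 ≤ e.1 * e.2.1 * e.2.2)
    (hco : IsCoprime (F.map (Int.castRingHom ℚ)) (G.map (Int.castRingHom ℚ)))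
    (hdeg : 0 < F.natDegree ∨ 0 < G.natDegree ∨ 0 < K.natDegree) : pol F G K s e ≠ 0 := by
  intro h0
  have hinj : Function.Injective (Int.castRingHom ℚ) := Int.cast_injective (α := ℚ)
  have hm : ∀ P : ℤ[X], P ≠ 0 → P.map (Int.castRingHom ℚ) ≠ 0 := by
    intro P hP
    rw [Ne, Polynomial.map_eq_zero_iff hinj]
    exact hP
  have hd : ∀ P : ℤ[X], (P.map (Int.castRingHom ℚ)).natDegree = P.natDegree := fun P =>
    Polynomial.natDegree_map_eq_of_injective hinj P
  have h1 : (pol F G K s e).map (Int.castRingHom ℚ) = 0 := by rw [h0, Polynomial.map_zero]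
  unfold pol at h1
  simp only [Polynomial.map_add, Polynomial.map_mul, Polynomial.map_pow, Polynomial.map_C] at h1
  have hk : ∀ n : ℕ, n ≠ 0 → (n : ℚ) ≠ 0 := fun n hn => by exact_mod_cast hn
  have hc : ∀ n : ℤ, n ≠ 0 → (Int.castRingHom ℚ) n ≠ 0 := fun n hn => by
    simpa using hn
  obtain ⟨d1, d2, d3⟩ := Polynomial.flt_catalan hp hq hr h (hk _ hp) (hk _ hq) (hk _ hr)
    (hm F hF) (hm G hG) (hm K hK) hco (hc _ hs1) (hc _ hs2) (hc _ hs3) h1
  rw [hd] at d1 d2 d3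
  omega

/-- the number of roots -/
theorem root_card (P : ℤ[X]) (hP : P ≠ 0) :
    {n : ℤ | P.eval n = 0}.Finite ∧ {n : ℤ | P.eval n = 0}.ncard ≤ P.natDegree := by
  have h1 : {n : ℤ | P.eval n = 0} = ↑(P.roots.toFinset) := by
    ext n
    simp [hP]
  rw [h1]
  refine ⟨Finset.finite_toSet _, ?_⟩
  rw [Set.ncard_coe_finset]
  exact (Multiset.toFinset_card_le _).trans (Polynomial.card_roots' P)

/-- the signs -/
def signs : Finset (ℤ × ℤ × ℤ) := ({1, -1} : Finset ℤ) ×ˢ ({1, -1} : Finset ℤ) ×ˢ ({1, -1} : Finset ℤ)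

theorem signs_card : signs.card = 8 := by
  unfold signs; rfl

theorem abs_pow_sign (t : ℤ) (p : ℕ) : ∃ σ ∈ ({1, -1} : Finset ℤ),
    ((t.natAbs : ℤ)) ^ p = σ * t ^ p := by
  rcases le_total 0 t with h | h
  · refine ⟨1, by simp, ?_⟩
    rw [Int.natAbs_of_nonneg h, one_mul]
  · have h1 : (t.natAbs : ℤ) = -t := by omega
    rcases Nat.even_or_odd p with h2 | h2
    · refine ⟨1, by simp, ?_⟩
      rw [h1, h2.neg_pow, one_mul]
    · refine ⟨-1, by simp, ?_⟩
      rw [h1, h2.neg_pow]; ring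

theorem mem_pm (σ : ℤ) (h : σ ∈ ({1, -1} : Finset ℤ)) : -σ ∈ ({1, -1} : Finset ℤ) := by
  simp only [Finset.mem_insert, Finset.mem_singleton] at *
  omega

/-- a relation between the absolute values gives a relation with signs -/
theorem signed (u v w : ℤ) (p q r : ℕ)
    (h : u.natAbs ^ p + v.natAbs ^ q = w.natAbs ^ r ∨ u.natAbs ^ p + w.natAbs ^ r = v.natAbs ^ q ∨
      v.natAbs ^ q + w.natAbs ^ r = u.natAbs ^ p) :
    ∃ s ∈ signs, s.1 * u ^ p + s.2.1 * v ^ q + s.2.2 * w ^ r = 0 := by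
  obtain ⟨a, ha, ha'⟩ := abs_pow_sign u p
  obtain ⟨b, hb, hb'⟩ := abs_pow_sign v q
  obtain ⟨c, hc, hc'⟩ := abs_pow_sign w r
  rcases h with h | h | h
  · refine ⟨(a, b, -c), ?_, ?_⟩
    · simp only [signs, Finset.mem_product]; exact ⟨ha, hb, mem_pm c hc⟩
    · have : ((u.natAbs : ℤ)) ^ p + (v.natAbs : ℤ) ^ q = (w.natAbs : ℤ) ^ r := by exact_mod_cast h
      rw [ha', hb', hc'] at this
      simp only; linarith
  · refine ⟨(a, -b, c), ?_, ?_⟩
    · simp only [signs, Finset.mem_product]; exact ⟨ha, mem_pm b hb, hc⟩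
    · have : ((u.natAbs : ℤ)) ^ p + (w.natAbs : ℤ) ^ r = (v.natAbs : ℤ) ^ q := by exact_mod_cast h
      rw [ha', hb', hc'] at this
      simp only; linarith
  · refine ⟨(-a, b, c), ?_, ?_⟩
    · simp only [signs, Finset.mem_product]; exact ⟨mem_pm a ha, hb, hc⟩
    · have : ((v.natAbs : ℤ)) ^ q + (w.natAbs : ℤ) ^ r = (u.natAbs : ℤ) ^ p := by exact_mod_cast h
      rw [ha', hb', hc'] at this
      simp only; linarith

/-- the bad parameters of a one-parameter family -/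
def Bad (F G K : ℤ[X]) (B : ℕ) : Set ℤ :=
  {n : ℤ | (F.eval n).natAbs ≤ B ∧ (G.eval n).natAbs ≤ B ∧ (K.eval n).natAbs ≤ B ∧
    Bases (F.eval n).natAbs (G.eval n).natAbs (K.eval n).natAbs}

/-- **The count on one-parameter families**, uniform in the polynomials. -/
theorem uni_count : ∃ (C : ℝ) (κ : ℕ), 0 < C ∧ ∀ (D : ℕ) (F G K : ℤ[X]), F.natDegree ≤ D →
    G.natDegree ≤ D → K.natDegree ≤ D → (0 < F.natDegree ∨ 0 < G.natDegree ∨ 0 < K.natDegree) →
    ∀ B : ℕ, 3 ≤ B → (Bad F G K B).Finite ∧ ((Bad F G K B).ncard : ℝ) ≤ C * D * Real.log B ^ κ := by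
  classical
  obtain ⟨C₀, κ, hC₀, hsm⟩ := small_exp
  refine ⟨10 * C₀ ^ 4 + 10, 4 * κ, by positivity, ?_⟩
  intro D F G K hF hG hK hdeg B hB
  have hB3 : (3 : ℝ) ≤ B := by exact_mod_cast hB
  have hL1 : 1 ≤ Real.log (B : ℝ) := by
    have h1 : Real.exp 1 ≤ (B : ℝ) := by
      have := Real.exp_one_lt_d9
      linarith
    rw [Real.le_log_iff_exp_le (by linarith)]
    exact h1
  set L := Real.log (B : ℝ) with hL
  have hLκ : 1 ≤ L ^ (4 * κ) := one_le_pow₀ hL1
  have hD1 : 1 ≤ D := by omega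
  have hD1' : (1 : ℝ) ≤ D := by exact_mod_cast hD1
  -- zero polynomials
  by_cases hz : F = 0 ∨ G = 0 ∨ K = 0
  · have hemp : Bad F G K B = ∅ := by
      ext n
      simp only [Bad, Set.mem_setOf_eq, Set.mem_empty_iff_false, iff_false]
      rintro ⟨_, _, _, h1, h2, h3, _⟩
      rcases hz with rfl | rfl | rfl
      · simp at h1
      · simp at h2
      · simp at h3
    rw [hemp]
    refine ⟨Set.finite_empty, ?_⟩
    simp only [Set.ncard_empty, Nat.cast_zero]
    positivity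
  push Not at hz
  obtain ⟨hF0, hG0, hK0⟩ := hz
  by_cases hco : IsCoprime (F.map (Int.castRingHom ℚ)) (G.map (Int.castRingHom ℚ))
  · -- the coprime case
    set E := ⌊C₀ * L ^ κ⌋₊ with hE
    have hELe : (E : ℝ) ≤ C₀ * L ^ κ := Nat.floor_le (by positivity)
    let I : Finset (ℕ × ℕ × ℕ) := (Finset.Icc 1 E) ×ˢ (Finset.Icc 1 E) ×ˢ (Finset.Icc 1 E)
    let J : Finset ((ℤ × ℤ × ℤ) × (ℕ × ℕ × ℕ)) :=
      (signs ×ˢ I).filter fun t => pol F G K t.1 t.2 ≠ 0
    have hsub : Bad F G K B ⊆ ⋃ t ∈ J, {n : ℤ | (pol F G K t.1 t.2).eval n = 0} := by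
      rintro n ⟨h1, h2, h3, hb⟩
      obtain ⟨p, q, r, hp, hq, hr, hpqr, ep, eq, er, heq⟩ := hsm _ _ _ hb B hB h1 h2 h3
      obtain ⟨s, hs, hs'⟩ := signed _ _ _ p q r heq
      have hs0 : s.1 ≠ 0 ∧ s.2.1 ≠ 0 ∧ s.2.2 ≠ 0 := by
        simp only [signs, Finset.mem_product, Finset.mem_insert, Finset.mem_singleton] at hs
        omega
      have hne := pol_ne_zero F G K s (p, q, r) hF0 hG0 hK0 hs0.1 hs0.2.1 hs0.2.2 hp hq hr hpqr
        hco hdeg
      have hpE : p ≤ E := Nat.le_floor ep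
      have hqE : q ≤ E := Nat.le_floor eq
      have hrE : r ≤ E := Nat.le_floor er
      simp only [Set.mem_iUnion, Set.mem_setOf_eq]
      refine ⟨(s, (p, q, r)), ?_, ?_⟩
      · simp only [J, I, Finset.mem_filter, Finset.mem_product, Finset.mem_Icc]
        exact ⟨⟨hs, ⟨by omega, hpE⟩, ⟨by omega, hqE⟩, ⟨by omega, hrE⟩⟩, hne⟩
      · simp only [pol, eval_add, eval_mul, eval_C, eval_pow]
        exact hs'
    have hfin : ∀ t ∈ J, {n : ℤ | (pol F G K t.1 t.2).eval n = 0}.Finite := by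
      intro t ht
      simp only [J, Finset.mem_filter] at ht
      exact (root_card _ ht.2).1
    have hfinU : (⋃ t ∈ J, {n : ℤ | (pol F G K t.1 t.2).eval n = 0}).Finite :=
      J.finite_toSet.biUnion fun t ht => hfin t ht
    refine ⟨hfinU.subset hsub, ?_⟩
    have hcard : (Bad F G K B).ncard ≤ J.card * (E * D) := by
      refine (Set.ncard_le_ncard hsub hfinU).trans ?_
      refine (Finset.set_ncard_biUnion_le _ _).trans ?_
      refine Finset.sum_le_card_nsmul _ _ _ ?_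
      intro t ht
      simp only [J, I, Finset.mem_filter, Finset.mem_product, Finset.mem_Icc] at ht
      refine (root_card _ ht.2).2.trans ?_
      exact pol_natDegree F G K t.1 t.2 D E hF hG hK ht.1.2.1.2 ht.1.2.2.1.2 ht.1.2.2.2.2
    have hJ : J.card ≤ 8 * (E * (E * E)) := by
      refine (Finset.card_filter_le _ _).trans ?_
      simp only [I, Finset.card_product, signs_card, Nat.card_Icc]
      simp
    have h1 : ((Bad F G K B).ncard : ℝ) ≤ 8 * ((E : ℝ) * (E * E)) * (E * D) := by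
      have h2 : (Bad F G K B).ncard ≤ 8 * (E * (E * E)) * (E * D) :=
        hcard.trans (Nat.mul_le_mul_right _ hJ)
      exact_mod_cast h2
    have hE0 : (0 : ℝ) ≤ E := Nat.cast_nonneg E
    have h3 : (E : ℝ) ^ 4 ≤ (C₀ * L ^ κ) ^ 4 := pow_le_pow_left₀ hE0 hELe 4
    calc ((Bad F G K B).ncard : ℝ) ≤ 8 * ((E : ℝ) * (E * E)) * (E * D) := h1
      _ = 8 * (E : ℝ) ^ 4 * D := by ring
      _ ≤ 8 * (C₀ * L ^ κ) ^ 4 * D := by
          apply mul_le_mul_of_nonneg_right _ (by positivity)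
          linarith
      _ = (8 * C₀ ^ 4) * D * L ^ (4 * κ) := by rw [mul_pow, ← pow_mul, mul_comm κ 4]; ring
      _ ≤ (10 * C₀ ^ 4 + 10) * D * L ^ (4 * κ) := by
          apply mul_le_mul_of_nonneg_right _ (by positivity)
          apply mul_le_mul_of_nonneg_right _ (by positivity)
          nlinarith [pow_pos hC₀ 4]
  · -- a common factor
    obtain ⟨d, hd, ⟨F', hF'⟩, ⟨G', hG'⟩⟩ := common F G hF0 hco
    have hdF : d.natDegree ≤ D := by
      have h1 : F.natDegree = d.natDegree + F'.natDegree := by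
        rw [hF']
        apply Polynomial.natDegree_mul
        · rintro rfl; simp at hd
        · rintro rfl; rw [mul_zero] at hF'; exact hF0 hF'
      omega
    have hd1 : d - 1 ≠ 0 := by
      intro h
      have : d = 1 := by linear_combination h
      rw [this] at hd; simp at hd
    have hd2 : d + 1 ≠ 0 := by
      intro h
      have : d = -1 := by linear_combination h
      rw [this] at hd; simp at hd
    have hsub : Bad F G K B ⊆ {n : ℤ | (d - 1).eval n = 0} ∪ {n : ℤ | (d + 1).eval n = 0} := by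
      rintro n ⟨_, _, _, _, _, _, hcop, _⟩
      have h1 : (d.eval n).natAbs ∣ (F.eval n).natAbs := by
        rw [Int.natAbs_dvd_natAbs, hF', eval_mul]; exact dvd_mul_right _ _
      have h2 : (d.eval n).natAbs ∣ (G.eval n).natAbs := by
        rw [Int.natAbs_dvd_natAbs, hG', eval_mul]; exact dvd_mul_right _ _
      have h3 : (d.eval n).natAbs = 1 := Nat.eq_one_of_dvd_coprimes hcop h1 h2
      rcases Int.natAbs_eq_iff.mp h3 with h4 | h4
      · left
        simp only [Set.mem_setOf_eq, eval_sub, eval_one, h4]; norm_num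
      · right
        simp only [Set.mem_setOf_eq, eval_add, eval_one, h4]; norm_num
    obtain ⟨f1, c1⟩ := root_card _ hd1
    obtain ⟨f2, c2⟩ := root_card _ hd2
    have e1 : (d - 1).natDegree ≤ D :=
      ((natDegree_sub_le _ _).trans (by simp)).trans hdF
    have e2 : (d + 1).natDegree ≤ D :=
      ((natDegree_add_le _ _).trans (by simp)).trans hdF
    refine ⟨(f1.union f2).subset hsub, ?_⟩
    have h1 : (Bad F G K B).ncard ≤ 2 * D := by
      refine (Set.ncard_le_ncard hsub (f1.union f2)).trans ?_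
      refine (Set.ncard_union_le _ _).trans ?_
      omega
    have h2 : ((Bad F G K B).ncard : ℝ) ≤ 2 * D := by exact_mod_cast h1
    have h3 : (2 : ℝ) * D ≤ (10 * C₀ ^ 4 + 10) * D := by
      nlinarith [pow_pos hC₀ 4]
    have h4 : (10 * C₀ ^ 4 + 10) * (D : ℝ) * 1 ≤ (10 * C₀ ^ 4 + 10) * D * L ^ (4 * κ) :=
      mul_le_mul_of_nonneg_left hLκ (by positivity)
    linarith

end Pool.Agent.helper616_fc
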