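import Mathlib
import Pool.Agent.helper616_fc.UniCount

/-!
# Restriction of polynomials in several variables to lines parallel to the axes
-/

set_option autoImplicit false

namespace Pool.Agent.helper616_fc

open MvPolynomial

variable {m : ℕ}

/-- the restriction of `f` to the line through `u` parallel to the axis `i` -/
noncomputable def line (i : Fin m) (u : Fin m → ℤ) (f : MvPolynomial (Fin m) ℤ) : Polynomial ℤ :=
  MvPolynomial.aeval (fun j => if j = i then (Polynomial.X : Polynomial ℤ) else Polynomial.C (u j)) f

theorem line_eval (i : Fin m) (u : Fin m → ℤ) (f : MvPolynomial (Fin m) ℤ) (t : ℤ) :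
    (line i u f).eval t = MvPolynomial.eval (Function.update u i t) f := by
  unfold line
  induction f using MvPolynomial.induction_on with
  | C a => simp
  | add p q hp hq => simp only [map_add, Polynomial.eval_add, hp, hq]
  | mul_X p j hp =>
    simp only [map_mul, Polynomial.eval_mul, hp, MvPolynomial.aeval_X, MvPolynomial.eval_X]
    by_cases h : j = i
    · subst h; simp
    · simp [h]

theorem line_deriv (i : Fin m) (u : Fin m → ℤ) (f : MvPolynomial (Fin m) ℤ) :
    Polynomial.derivative (line i u f) = line i u (pderiv i f) := by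
  unfold line
  induction f using MvPolynomial.induction_on with
  | C a => simp
  | add p q hp hq => simp only [map_add, hp, hq]
  | mul_X p j hp =>
    rw [map_mul, Polynomial.derivative_mul, hp, pderiv_mul, map_add, map_mul, map_mul]
    congr 1
    by_cases h : j = i
    · subst h; simp
    · simp [h, pderiv_X]

theorem line_natDegree (i : Fin m) (u : Fin m → ℤ) (f : MvPolynomial (Fin m) ℤ) (D : ℕ)
    (hf : f.totalDegree ≤ D) : (line i u f).natDegree ≤ D := by
  have h := MvPolynomial.aeval_natDegree_le f hf
    (fun j => if j = i then (Polynomial.X : Polynomial ℤ) else Polynomial.C (u j)) (n := 1) (by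
      intro j
      split_ifs
      · exact Polynomial.natDegree_X_le
      · simp)
  rw [mul_one] at h
  exact h

theorem line_update (i : Fin m) (u : Fin m → ℤ) (t : ℤ) (f : MvPolynomial (Fin m) ℤ) :
    line i (Function.update u i t) f = line i u f := by
  unfold line
  congr 2
  funext j
  by_cases h : j = i
  · simp [h]
  · simp [h]

theorem line_self (i : Fin m) (u : Fin m → ℤ) (f : MvPolynomial (Fin m) ℤ) :
    (line i u f).eval (u i) = MvPolynomial.eval u f := by
  rw [line_eval, Function.update_eq_self]

/-- a nonconstant polynomial depends on one of the variables -/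
theorem exists_pderiv (f : MvPolynomial (Fin m) ℤ) (hf : 0 < f.totalDegree) :
    ∃ i, pderiv i f ≠ 0 := by
  by_contra h
  push Not at h
  have h1 : f = C (coeff 0 f) := by
    ext s
    rw [coeff_C]
    split_ifs with hs
    · rw [hs]
    · by_contra h2
      obtain ⟨i, hi⟩ : ∃ i, s i ≠ 0 := by
        by_contra h3
        push Not at h3
        exact hs (Finsupp.ext fun i => (h3 i).symm)
      have h4 := congrArg (coeff (s - Finsupp.single i 1)) (h i)
      rw [coeff_pderiv, coeff_zero] at h4
      have h5 : s - Finsupp.single i 1 + Finsupp.single i 1 = s := by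
        apply tsub_add_cancel_of_le
        rw [Finsupp.single_le_iff]
        omega
      rw [h5] at h4
      rcases mul_eq_zero.mp h4 with h6 | h6
      · exact h2 h6
      · have : (0 : ℤ) ≤ (((s - Finsupp.single i 1 : Fin m →₀ ℕ) i : ℕ) : ℤ) := Int.natCast_nonneg _
        omega
  rw [totalDegree_eq_zero_iff_eq_C.mpr h1] at hf
  exact absurd hf (lt_irrefl 0)

theorem totalDegree_pderiv (i : Fin m) (f : MvPolynomial (Fin m) ℤ) :
    (pderiv i f).totalDegree ≤ f.totalDegree := by
  refine Finset.sup_le fun s hs => ?_
  rw [mem_support_iff, coeff_pderiv] at hs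
  have h1 : s + Finsupp.single i 1 ∈ f.support := by
    rw [mem_support_iff]
    exact left_ne_zero_of_mul hs
  refine le_trans ?_ (le_totalDegree h1)
  rw [Finsupp.sum_fintype _ _ (by simp), Finsupp.sum_fintype _ _ (by simp)]
  refine Finset.sum_le_sum fun j _ => ?_
  rw [Finsupp.add_apply]
  omega

/-- the number of monomials -/
theorem card_support (f : MvPolynomial (Fin m) ℤ) (D : ℕ) (hf : f.totalDegree ≤ D) :
    f.support.card ≤ (D + 1) ^ m := by
  classical
  have hle : ∀ s ∈ f.support, ∀ i, s i ≤ D := by
    intro s hs i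
    refine le_trans ?_ hf
    refine le_trans ?_ (le_totalDegree hs)
    rw [Finsupp.sum_fintype _ _ (by simp)]
    exact Finset.single_le_sum (f := fun i => s i) (fun _ _ => Nat.zero_le _) (Finset.mem_univ i)
  have h1 : f.support.card ≤ (Fintype.piFinset fun _ : Fin m => Finset.range (D + 1)).card := by
    refine Finset.card_le_card_of_injOn (fun s => (s : Fin m → ℕ)) ?_ ?_
    · intro s hs
      simp only [Finset.mem_coe, Fintype.mem_piFinset, Finset.mem_range]
      intro i
      have := hle s hs i
      omega
    · intro s _ t _ hst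
      exact DFunLike.coe_injective hst
  refine h1.trans ?_
  simp

/-- the size of the values -/
theorem value_bound (f : MvPolynomial (Fin m) ℤ) (D H N : ℕ) (hf : f.totalDegree ≤ D)
    (hH : ∀ s, |coeff s f| ≤ H) (hN : 1 ≤ N) (u : Fin m → ℤ) (hu : ∀ i, |u i| ≤ N) :
    (MvPolynomial.eval u f).natAbs ≤ (D + 1) ^ m * H * N ^ D := by
  have h1 : |MvPolynomial.eval u f| ≤ ∑ _s ∈ f.support, ((H : ℤ) * (N : ℤ) ^ D) := by
    rw [MvPolynomial.eval_eq]
    refine (Finset.abs_sum_le_sum_abs _ _).trans (Finset.sum_le_sum fun s hs => ?_)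
    rw [abs_mul]
    refine mul_le_mul (hH s) ?_ (abs_nonneg _) (by positivity)
    rw [Finset.abs_prod]
    have h2 : ∏ i ∈ s.support, |u i ^ s i| ≤ ∏ i ∈ s.support, (N : ℤ) ^ s i := by
      refine Finset.prod_le_prod (fun i _ => abs_nonneg _) fun i _ => ?_
      rw [abs_pow]
      exact pow_le_pow_left₀ (abs_nonneg _) (hu i) _
    refine h2.trans ?_
    rw [Finset.prod_pow_eq_pow_sum]
    have h3 : ∑ i ∈ s.support, s i ≤ D := (le_totalDegree hs).trans hf
    exact pow_le_pow_right₀ (by exact_mod_cast hN) h3
  rw [Finset.sum_const, nsmul_eq_mul] at h1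
  have h4 : (f.support.card : ℤ) ≤ ((D : ℤ) + 1) ^ m := by exact_mod_cast card_support f D hf
  have h5 : |MvPolynomial.eval u f| ≤ ((D : ℤ) + 1) ^ m * (H * (N : ℤ) ^ D) :=
    h1.trans (mul_le_mul_of_nonneg_right h4 (by positivity))
  zify
  calc |MvPolynomial.eval u f| ≤ ((D : ℤ) + 1) ^ m * (H * (N : ℤ) ^ D) := h5
    _ = _ := by ring

end Pool.Agent.helper616_fc
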