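import Mathlib
import Pool.Agent.helper616_fc.Line

/-!
# The number of solutions on a polynomial family with several parameters
-/

set_option autoImplicit false

namespace Pool.Agent.helper616_fc

open MvPolynomial

/-- the box `[-N, N] ^ m` -/
noncomputable def box (m N : ℕ) : Finset (Fin m → ℤ) := Fintype.piFinset fun _ => Finset.Icc (-(N : ℤ)) N

theorem mem_box {m N : ℕ} {u : Fin m → ℤ} : u ∈ box m N ↔ ∀ i, |u i| ≤ N := by
  simp only [box, Fintype.mem_piFinset, Finset.mem_Icc, abs_le]

/-- Schwartz-Zippel -/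
theorem zeros_box (m N : ℕ) (c : MvPolynomial (Fin (m + 1)) ℤ) (hc : c ≠ 0) (D : ℕ)
    (hD : c.totalDegree ≤ D) :
    ((box (m + 1) N).filter fun u => MvPolynomial.eval u c = 0).card ≤ D * (2 * N + 1) ^ m := by
  have h := MvPolynomial.schwartz_zippel_totalDegree hc (Finset.Icc (-(N : ℤ)) N)
  have hS : (Finset.Icc (-(N : ℤ)) N).card = 2 * N + 1 := by
    rw [Int.card_Icc]; omega
  rw [hS] at h
  have hpos : (0 : ℚ≥0) < (((2 * N + 1 : ℕ) : ℚ≥0)) ^ (m + 1) := by positivity
  have hpos2 : (0 : ℚ≥0) < (((2 * N + 1 : ℕ) : ℚ≥0)) := by positivity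
  rw [div_le_iff₀ hpos] at h
  have h2 : ((c.totalDegree : ℚ≥0) / ((2 * N + 1 : ℕ) : ℚ≥0)) * ((2 * N + 1 : ℕ) : ℚ≥0) ^ (m + 1) =
      c.totalDegree * ((2 * N + 1 : ℕ) : ℚ≥0) ^ m := by
    rw [pow_succ]
    field_simp
  rw [h2] at h
  have h3 : ((box (m + 1) N).filter fun u => MvPolynomial.eval u c = 0).card ≤
      c.totalDegree * (2 * N + 1) ^ m := by
    unfold box
    exact_mod_cast h
  exact h3.trans (Nat.mul_le_mul_right _ hD)

/-- the number of lines -/
theorem card_lines (m N : ℕ) (i : Fin (m + 1)) :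
    (Fintype.piFinset fun j : Fin (m + 1) =>
      if j = i then ({0} : Finset ℤ) else Finset.Icc (-(N : ℤ)) N).card = (2 * N + 1) ^ m := by
  rw [Fintype.card_piFinset]
  have hS : (Finset.Icc (-(N : ℤ)) N).card = 2 * N + 1 := by
    rw [Int.card_Icc]; omega
  have h1 : ∀ j : Fin (m + 1), (if j = i then ({0} : Finset ℤ) else Finset.Icc (-(N : ℤ)) N).card =
      if j = i then 1 else 2 * N + 1 := by
    intro j
    split_ifs
    · simp
    · exact hS
  simp_rw [h1]
  rw [Finset.prod_ite, Finset.prod_const_one, one_mul, Finset.prod_const]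
  congr 1
  rw [Finset.filter_ne', Finset.card_erase_of_mem (Finset.mem_univ i), Finset.card_univ,
    Fintype.card_fin]
  rfl

/-- the count with a bound `B` for the values -/
theorem multi_aux : ∃ (C : ℝ) (κ : ℕ), 0 < C ∧ ∀ (m D N B : ℕ)
    (f g h : MvPolynomial (Fin (m + 1)) ℤ), f.totalDegree ≤ D → g.totalDegree ≤ D →
    h.totalDegree ≤ D → (0 < f.totalDegree ∨ 0 < g.totalDegree ∨ 0 < h.totalDegree) → 3 ≤ B →
    (∀ u ∈ box (m + 1) N, (eval u f).natAbs ≤ B ∧ (eval u g).natAbs ≤ B ∧ (eval u h).natAbs ≤ B) →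
    (Set.ncard {u : Fin (m + 1) → ℤ | u ∈ box (m + 1) N ∧
        Bases (eval u f).natAbs (eval u g).natAbs (eval u h).natAbs} : ℝ) ≤
      C * D * (2 * N + 1) ^ m * Real.log B ^ κ := by
  classical
  obtain ⟨C₀, κ, hC₀, huni⟩ := uni_count
  refine ⟨C₀ + 1, κ, by positivity, ?_⟩
  intro m D N B f g h hf hg hh hdeg hB hval
  have hB3 : (3 : ℝ) ≤ B := by exact_mod_cast hB
  have hL1 : 1 ≤ Real.log (B : ℝ) := by
    have h1 : Real.exp 1 ≤ (B : ℝ) := by
      have := Real.exp_one_lt_d9
      linarith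
    rw [Real.le_log_iff_exp_le (by linarith)]
    exact h1
  set L := Real.log (B : ℝ) with hL
  have hLκ : 1 ≤ L ^ κ := one_le_pow₀ hL1
  obtain ⟨φ, hφD, hφ, hφcase⟩ : ∃ φ : MvPolynomial (Fin (m + 1)) ℤ, φ.totalDegree ≤ D ∧
      0 < φ.totalDegree ∧ (φ = f ∨ φ = g ∨ φ = h) := by
    rcases hdeg with h1 | h1 | h1
    · exact ⟨f, hf, h1, Or.inl rfl⟩
    · exact ⟨g, hg, h1, Or.inr (Or.inl rfl)⟩
    · exact ⟨h, hh, h1, Or.inr (Or.inr rfl)⟩
  obtain ⟨i, hi⟩ := exists_pderiv φ hφ
  set T : Finset (Fin (m + 1) → ℤ) := (box (m + 1) N).filter fun u =>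
    Bases (eval u f).natAbs (eval u g).natAbs (eval u h).natAbs with hT
  have hset : {u : Fin (m + 1) → ℤ | u ∈ box (m + 1) N ∧
      Bases (eval u f).natAbs (eval u g).natAbs (eval u h).natAbs} = ↑T := by
    ext u
    simp [hT]
  rw [hset, Set.ncard_coe_finset]
  set T1 := (box (m + 1) N).filter fun u => eval u (pderiv i φ) = 0 with hT1
  set T2 := T.filter fun u => eval u (pderiv i φ) ≠ 0 with hT2
  have hTle : T.card ≤ T1.card + T2.card := by
    refine (Finset.card_le_card ?_).trans (Finset.card_union_le T1 T2)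
    intro u hu
    rw [Finset.mem_union]
    by_cases h1 : eval u (pderiv i φ) = 0
    · left
      rw [hT1, Finset.mem_filter]
      rw [hT, Finset.mem_filter] at hu
      exact ⟨hu.1, h1⟩
    · right
      rw [hT2, Finset.mem_filter]
      exact ⟨hu, h1⟩
  have hc1 : T1.card ≤ D * (2 * N + 1) ^ m :=
    zeros_box m N _ hi D ((totalDegree_pderiv i φ).trans hφD)
  set M := ⌊C₀ * D * L ^ κ⌋₊ with hM
  have hMle : (M : ℝ) ≤ C₀ * D * L ^ κ := Nat.floor_le (by positivity)
  have hc2 : T2.card ≤ M * (2 * N + 1) ^ m := by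
    have h1 : T2.card ≤ M * (Fintype.piFinset fun j : Fin (m + 1) =>
      if j = i then ({0} : Finset ℤ) else Finset.Icc (-(N : ℤ)) N).card := by
      refine Finset.card_le_mul_card_image_of_maps_to (f := fun u => Function.update u i 0) ?_ M ?_
      · intro u hu
        rw [hT2, Finset.mem_filter, hT, Finset.mem_filter] at hu
        have hub := mem_box.mp hu.1.1
        rw [Fintype.mem_piFinset]
        intro j
        by_cases hj : j = i
        · subst hj; simp
        · simp only [hj, if_false, Function.update_of_ne (Ne.symm (Ne.symm hj)), Finset.mem_Icc]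
          exact abs_le.mp (hub j)
      · intro v _
        by_cases hne : (T2.filter fun u => Function.update u i 0 = v).Nonempty
        · obtain ⟨u₀, hu₀⟩ := hne
          have hlines : ∀ u ∈ T2.filter (fun u => Function.update u i 0 = v),
              ∀ ψ : MvPolynomial (Fin (m + 1)) ℤ, line i u ψ = line i v ψ := by
            intro u hu ψ
            rw [Finset.mem_filter] at hu
            rw [← hu.2, line_update]
          have hdegφ : 0 < (line i v φ).natDegree := by
            by_contra hc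
            have h2 : (line i v φ).natDegree = 0 := by omega
            have h3 : Polynomial.derivative (line i v φ) = 0 :=
              Polynomial.derivative_of_natDegree_zero h2
            rw [line_deriv, ← hlines u₀ hu₀] at h3
            have h4 := line_self i u₀ (pderiv i φ)
            rw [h3, Polynomial.eval_zero] at h4
            rw [Finset.mem_filter, hT2, Finset.mem_filter] at hu₀
            exact hu₀.1.2 h4.symm
          have hdeg' : 0 < (line i v f).natDegree ∨ 0 < (line i v g).natDegree ∨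
              0 < (line i v h).natDegree := by
            rcases hφcase with rfl | rfl | rfl
            · exact Or.inl hdegφ
            · exact Or.inr (Or.inl hdegφ)
            · exact Or.inr (Or.inr hdegφ)
          obtain ⟨b1, b2⟩ := huni D (line i v f) (line i v g) (line i v h) (line_natDegree i v f D hf)
            (line_natDegree i v g D hg) (line_natDegree i v h D hh) hdeg' B hB
          have h5 : (Bad (line i v f) (line i v g) (line i v h) B).ncard ≤ M := Nat.le_floor b2
          refine le_trans ?_ h5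
          rw [← Set.ncard_coe_finset]
          refine Set.ncard_le_ncard_of_injOn (fun u => u i) ?_ ?_ b1
          · intro u hu
            have hu' := Finset.mem_coe.mp hu
            have hl := hlines u hu'
            rw [Finset.mem_filter, hT2, Finset.mem_filter, hT, Finset.mem_filter] at hu'
            obtain ⟨v1, v2, v3⟩ := hval u hu'.1.1.1
            have hb := hu'.1.1.2
            simp only [Bad, Set.mem_setOf_eq, ← hl, line_self]
            exact ⟨v1, v2, v3, hb⟩
          · intro u hu w hw huw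
            have hu' := (Finset.mem_filter.mp (Finset.mem_coe.mp hu)).2
            have hw' := (Finset.mem_filter.mp (Finset.mem_coe.mp hw)).2
            simp only at huw
            funext j
            by_cases hj : j = i
            · rw [hj]; exact huw
            · have h6 := congrFun (hu'.trans hw'.symm) j
              simpa [Function.update_of_ne hj] using h6
        · rw [Finset.not_nonempty_iff_eq_empty] at hne
          rw [hne]
          simp
    rw [card_lines] at h1
    exact h1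
  have hfin : T.card ≤ D * (2 * N + 1) ^ m + M * (2 * N + 1) ^ m := by omega
  have hfinR : (T.card : ℝ) ≤ D * (2 * N + 1) ^ m + M * (2 * N + 1) ^ m := by exact_mod_cast hfin
  have hNm : (0 : ℝ) < (2 * N + 1) ^ m := by positivity
  calc (T.card : ℝ) ≤ D * (2 * N + 1) ^ m + M * (2 * N + 1) ^ m := hfinR
    _ ≤ D * (2 * N + 1) ^ m + (C₀ * D * L ^ κ) * (2 * N + 1) ^ m := by
        have := mul_le_mul_of_nonneg_right hMle hNm.le
        linarith
    _ ≤ D * (2 * N + 1) ^ m * L ^ κ + (C₀ * D * L ^ κ) * (2 * N + 1) ^ m := by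
        have h1 : 0 ≤ (D : ℝ) * (2 * N + 1) ^ m := by positivity
        have := mul_le_mul_of_nonneg_left hLκ h1
        linarith
    _ = (C₀ + 1) * D * (2 * N + 1) ^ m * L ^ κ := by ring

/-- **The number of solutions on a polynomial family.** -/
theorem multi : ∃ κ : ℕ, ∀ m D : ℕ, ∃ C : ℝ, ∀ (f g h : MvPolynomial (Fin (m + 1)) ℤ) (H N : ℕ),
    f.totalDegree ≤ D → g.totalDegree ≤ D → h.totalDegree ≤ D →
    (0 < f.totalDegree ∨ 0 < g.totalDegree ∨ 0 < h.totalDegree) →
    (∀ s, |coeff s f| ≤ H) → (∀ s, |coeff s g| ≤ H) → (∀ s, |coeff s h| ≤ H) → 1 ≤ N →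
    (Set.ncard {u : Fin (m + 1) → ℤ | (∀ i, |u i| ≤ N) ∧
        Bases (eval u f).natAbs (eval u g).natAbs (eval u h).natAbs} : ℝ) ≤
      C * (N : ℝ) ^ m * Real.log (N + H + 2) ^ κ := by
  obtain ⟨C₀, κ, hC₀, haux⟩ := multi_aux
  refine ⟨κ, fun m D => ?_⟩
  set A : ℕ := (D + 1) ^ (m + 1) + 3 with hA
  refine ⟨C₀ * D * 3 ^ m * (Real.log A + (D + 1)) ^ κ, ?_⟩
  intro f g h H N hf hg hh hdeg hcf hcg hch hN
  set B : ℕ := (D + 1) ^ (m + 1) * H * N ^ D + 3 with hBdef
  have hval : ∀ ψ : MvPolynomial (Fin (m + 1)) ℤ, ψ.totalDegree ≤ D → (∀ s, |coeff s ψ| ≤ H) →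
      ∀ u ∈ box (m + 1) N, (eval u ψ).natAbs ≤ B := by
    intro ψ h1 h2 u hu
    have := value_bound ψ D H N h1 h2 hN u (mem_box.mp hu)
    omega
  have h1 := haux m D N B f g h hf hg hh hdeg (by omega)
    (fun u hu => ⟨hval f hf hcf u hu, hval g hg hcg u hu, hval h hh hch u hu⟩)
  have hset : {u : Fin (m + 1) → ℤ | u ∈ box (m + 1) N ∧
      Bases (eval u f).natAbs (eval u g).natAbs (eval u h).natAbs} =
      {u : Fin (m + 1) → ℤ | (∀ i, |u i| ≤ N) ∧
        Bases (eval u f).natAbs (eval u g).natAbs (eval u h).natAbs} := by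
    ext u
    simp only [Set.mem_setOf_eq, mem_box]
  rw [hset] at h1
  refine h1.trans ?_
  have hNR : (1 : ℝ) ≤ N := by exact_mod_cast hN
  have hHR : (0 : ℝ) ≤ H := Nat.cast_nonneg H
  have hBle : (B : ℝ) ≤ (A : ℝ) * ((N : ℝ) + H + 2) ^ (D + 1) := by
    have h2 : B ≤ A * (N + H + 2) ^ (D + 1) := by
      have h3 : N ^ D ≤ (N + H + 2) ^ D := Nat.pow_le_pow_left (by omega) D
      have h4 : H * N ^ D ≤ (N + H + 2) ^ (D + 1) := by
        rw [pow_succ, mul_comm]
        exact Nat.mul_le_mul h3 (by omega)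
      have h5 : (1 : ℕ) ≤ (N + H + 2) ^ (D + 1) := Nat.one_le_pow _ _ (by omega)
      rw [hBdef, hA]
      calc (D + 1) ^ (m + 1) * H * N ^ D + 3 = (D + 1) ^ (m + 1) * (H * N ^ D) + 3 * 1 := by ring
        _ ≤ (D + 1) ^ (m + 1) * (N + H + 2) ^ (D + 1) + 3 * (N + H + 2) ^ (D + 1) :=
            Nat.add_le_add (Nat.mul_le_mul_left _ h4) (Nat.mul_le_mul_left _ h5)
        _ = _ := by ring
    exact_mod_cast h2
  set Λ := Real.log ((N : ℝ) + H + 2) with hΛ
  have hΛ1 : 1 ≤ Λ := by
    have h1 : Real.exp 1 ≤ (N : ℝ) + H + 2 := by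
      have := Real.exp_one_lt_d9
      linarith
    rw [hΛ, Real.le_log_iff_exp_le (by linarith)]
    exact h1
  have hApos : (0 : ℝ) < A := by positivity
  have hA1 : (1 : ℝ) ≤ A := by
    have : 1 ≤ A := by omega
    exact_mod_cast this
  have hlogA : 0 ≤ Real.log (A : ℝ) := Real.log_nonneg hA1
  have hlogB : Real.log (B : ℝ) ≤ (Real.log A + (D + 1)) * Λ := by
    have hBpos : (0 : ℝ) < B := by
      have : 0 < B := by omega
      exact_mod_cast this
    calc Real.log (B : ℝ) ≤ Real.log ((A : ℝ) * ((N : ℝ) + H + 2) ^ (D + 1)) :=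
          Real.log_le_log hBpos hBle
      _ = Real.log A + (D + 1 : ℕ) * Λ := by
          rw [Real.log_mul (by positivity) (by positivity), Real.log_pow]
      _ ≤ Real.log A * Λ + (D + 1 : ℕ) * Λ := by nlinarith
      _ = _ := by push_cast; ring
  have hlogB0 : 0 ≤ Real.log (B : ℝ) := by
    apply Real.log_nonneg
    have : 1 ≤ B := by omega
    exact_mod_cast this
  have h6 : Real.log (B : ℝ) ^ κ ≤ (Real.log A + (D + 1)) ^ κ * Λ ^ κ := by
    rw [← mul_pow]
    exact pow_le_pow_left₀ hlogB0 hlogB κ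
  have h7 : ((2 : ℝ) * N + 1) ^ m ≤ 3 ^ m * (N : ℝ) ^ m := by
    rw [← mul_pow]
    exact pow_le_pow_left₀ (by positivity) (by linarith) m
  calc C₀ * D * (2 * N + 1) ^ m * Real.log B ^ κ
      ≤ C₀ * D * (3 ^ m * (N : ℝ) ^ m) * ((Real.log A + (D + 1)) ^ κ * Λ ^ κ) := by
        apply mul_le_mul _ h6 (by positivity) (by positivity)
        exact mul_le_mul_of_nonneg_left h7 (by positivity)
    _ = _ := by ring

end Pool.Agent.helper616_fc
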